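import Mathlib

open Set Filter Topology Metric TopologicalSpace
open scoped PiCountable

namespace Pool.Agent.Results.MP_24ecc9_an.Counter

/-- normal fuzzy set -/
def IsF {X : Type} [TopologicalSpace X] (u : X → ℝ) : Prop :=
  (∀ x, u x ∈ Icc (0 : ℝ) 1) ∧ UpperSemicontinuous u ∧ (∃ x, u x = 1) ∧ IsCompact (closure {x | 0 < u x})

/-- Zadeh extension -/
noncomputable def zad {X Y : Type} (f : X → Y) (u : X → ℝ) (y : Y) : ℝ := sSup (u '' {x | f x = y})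

/-- endograph metric -/
noncomputable def dE {X : Type} [MetricSpace X] (u v : X → ℝ) : ℝ :=
  hausdorffDist {p : X × ℝ | p.2 ∈ Icc (0 : ℝ) 1 ∧ p.2 ≤ u p.1} {p : X × ℝ | p.2 ∈ Icc (0 : ℝ) 1 ∧ p.2 ≤ v p.1}

/-- `g` acting on `({y | P y}, ρ)` has a dense proximal relation -/
def DenseProx {Y : Type} (P : Y → Prop) (ρ : Y → Y → ℝ) (g : Y → Y) : Prop :=
  ∀ y z, P y → P z → ∀ ε > 0, ∃ y' z', P y' ∧ P z' ∧ ρ y y' < ε ∧ ρ z z' < ε ∧
    ∀ δ > 0, ∃ᶠ n in atTop, ρ (g^[n] y') (g^[n] z') < δ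

section
variable {X Y : Type} {u v : X → ℝ}

lemma zB (f : X → Y) (h : ∀ x, u x ∈ Icc (0 : ℝ) 1) (y : Y) : zad f u y ∈ Icc (0 : ℝ) 1 :=
  ⟨Real.sSup_nonneg fun _ ⟨x, _, e⟩ => e ▸ (h x).1, Real.sSup_le (fun _ ⟨x, _, e⟩ => e ▸ (h x).2) zero_le_one⟩

lemma zL (f : X → Y) (h : ∀ x, u x ∈ Icc (0 : ℝ) 1) (x : X) : u x ≤ zad f u (f x) :=
  le_csSup ⟨1, fun _ ⟨x, _, e⟩ => e ▸ (h x).2⟩ ⟨x, rfl, rfl⟩

lemma zU (f : X → Y) {t : ℝ} (t0 : 0 ≤ t) {y : Y} (h : t < zad f u y) : ∃ x, f x = y ∧ t < u x := by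
  by_contra! H
  exact h.not_ge (Real.sSup_le (fun _ ⟨x, a, e⟩ => e ▸ H x a) t0)

lemma zI (f : X → X) (h : ∀ x, u x ∈ Icc (0 : ℝ) 1) (n : ℕ) : (∀ x, (zad f)^[n] u x ∈ Icc (0 : ℝ) 1) ∧
    (∀ x, u x ≤ (zad f)^[n] u (f^[n] x)) ∧ ∀ t y, 0 ≤ t → t < (zad f)^[n] u y → ∃ x, f^[n] x = y ∧ t < u x := by
  induction n with
  | zero => exact ⟨h, fun _ => le_rfl, fun t y _ h => ⟨y, rfl, h⟩⟩
  | succ n ih =>
    simp only [Function.iterate_succ_apply']
    refine ⟨zB f ih.1, fun x => (ih.2.1 x).trans (zL f ih.1 _), fun t y t0 H => ?_⟩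
    obtain ⟨_, rfl, H1⟩ := zU f t0 H
    obtain ⟨x, rfl, H2⟩ := ih.2.2 t _ t0 H1
    exact ⟨x, rfl, H2⟩

lemma zF [TopologicalSpace X] [TopologicalSpace Y] [T2Space Y] {f : X → Y} (hf : Continuous f) (h : IsF u) :
    IsF (zad f u) := by
  obtain ⟨h1, h2, ⟨x, h3⟩, h4⟩ := h
  refine ⟨zB f h1, upperSemicontinuous_iff_isClosed_preimage.2 fun a => ?_,
    ⟨f x, (zB f h1 _).2.antisymm (h3 ▸ zL f h1 x)⟩, (h4.image hf).closure_of_subset fun y hy => ?_⟩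
  · have : zad f u ⁻¹' Ici a = ⋂ b ∈ Ioo 0 a, f '' (u ⁻¹' Ici b) := by
      ext y
      simp only [mem_preimage, mem_Ici, mem_iInter₂]
      refine ⟨fun h b hb => let ⟨x, e, h⟩ := zU f hb.1.le (hb.2.trans_le h); ⟨x, h.le, e⟩, fun h => ?_⟩
      by_contra! c
      obtain ⟨b, b1, b2⟩ := exists_between c
      obtain ⟨x, e, rfl⟩ := h b ⟨(zB f h1 y).1.trans_lt b1, b2⟩
      exact b1.not_ge (le_trans e (zL f h1 x))
    exact this ▸ isClosed_biInter fun b hb => ((h4.of_isClosed_subset (h2.isClosed_preimage b) fun x hx =>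
      subset_closure (hb.1.trans_le hx)).image hf).isClosed
  · obtain ⟨x, rfl, h⟩ := zU f le_rfl hy
    exact mem_image_of_mem f (subset_closure h)

lemma dE_le [MetricSpace X] {δ : ℝ} (δ0 : 0 < δ) (hu : ∀ x, u x ∈ Icc (0 : ℝ) 1) (hv : ∀ x, v x ∈ Icc (0 : ℝ) 1)
    (h1 : ∀ x, δ < u x → ∃ y, dist x y ≤ δ ∧ u x - δ ≤ v y) (h2 : ∀ x, δ < v x → ∃ y, dist x y ≤ δ ∧ v x - δ ≤ u y) :
    dE u v ≤ δ := by
  have : ∀ u v : X → ℝ, (∀ x, v x ∈ Icc (0 : ℝ) 1) → (∀ x, δ < u x → ∃ y, dist x y ≤ δ ∧ u x - δ ≤ v y) →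
      ∀ p ∈ {p : X × ℝ | p.2 ∈ Icc (0 : ℝ) 1 ∧ p.2 ≤ u p.1},
      ∃ q ∈ {p : X × ℝ | p.2 ∈ Icc (0 : ℝ) 1 ∧ p.2 ≤ v p.1}, dist p q ≤ δ := fun u v hv h ⟨x, t⟩ ⟨a, b⟩ => by
    rcases le_or_gt t δ with c | c
    · exact ⟨(x, 0), ⟨by simp, (hv x).1⟩, by simpa [Prod.dist_eq, δ0.le, abs_of_nonneg a.1]⟩
    · obtain ⟨y, e, e'⟩ := h x (c.trans_le b)
      exact ⟨(y, t - δ), ⟨⟨by linarith, by linarith [a.2]⟩, by simp only at b ⊢; linarith⟩,
        by simp [Prod.dist_eq, e, abs_of_pos δ0]⟩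
  exact hausdorffDist_le_of_mem_dist δ0.le (this u v hv h1) (this v u hu h2)

end

noncomputable def z (τ : ℕ) (l s : ℝ) (n : ℕ) : ℝ :=
  if n.sqrt.unpair.1 = τ then (n.sqrt + 1) * s + l else -1 - l

def Lab (l : ℝ) (x : ℕ → ℝ) : Prop := x 0 = -3 - l ∧ (∀ n, 0 < n → x n = -1 - l ∨ 0 ≤ x n) ∧
  ∃ τ, ∃ s ∈ Icc (0 : ℝ) 2, ∀ n, τ < n → x n = z τ l s n

def X := {x : ℕ → ℝ // (∀ n, -2 ≤ x n) ∨ Lab 0 x ∨ Lab 1 x}

noncomputable instance : MetricSpace X := @Subtype.metricSpace _ _ PiCountable.metricSpace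

@[fun_prop] lemma cv (n : ℕ) : Continuous fun x : X => x.1 n := (continuous_apply n).comp continuous_subtype_val

def f (x : X) : X := ⟨fun n => x.1 (n + 1), .inl fun n => by
  rcases x.2 with h | h | h
  · exact h _
  all_goals rcases h.2.1 (n + 1) n.succ_pos with h | h <;> linarith⟩

lemma fI (n : ℕ) (x : X) (i : ℕ) : (f^[n] x).1 i = x.1 (n + i) := by
  induction n generalizing i with
  | zero => simp
  | succ n ih => rw [Function.iterate_succ_apply']; exact ih (i + 1) |>.trans (by rw [add_assoc, add_comm 1])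

lemma fc : Continuous f := Continuous.subtype_mk (continuous_pi fun _ => cv _) _

lemma z0 (τ : ℕ) {l s : ℝ} (hl : 0 ≤ l) (hs : 0 ≤ s) (n : ℕ) : z τ l s n = -1 - l ∨ 0 ≤ z τ l s n := by
  unfold z; split_ifs
  exacts [.inr (by positivity), .inl rfl]

noncomputable def Γ (τ : ℕ) (p : X × Icc (0 : ℝ) 2) : X :=
  ⟨fun n => if n ≤ τ then p.1.1 n else z τ (max 0 (-3 - p.1.1 0)) p.2 n, by
    have k : ∀ l, 0 ≤ l → Lab l p.1.1 → Lab l fun n => if n ≤ τ then p.1.1 n else z τ (max 0 (-3 - p.1.1 0)) p.2 n :=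
      fun l l0 h => by
        rw [show max 0 (-3 - p.1.1 0) = l by simp [h.1, l0]]
        refine ⟨by simp [h.1], fun n hn => ?_, τ, p.2, p.2.2, fun n hn => if_neg hn.not_ge⟩
        simp only; split_ifs
        exacts [h.2.1 n hn, z0 τ l0 p.2.2.1 n]
    rcases p.1.2 with h | h | h
    · refine .inl fun n => ?_
      rw [max_eq_left (by linarith [h 0])]
      simp only; split_ifs
      · exact h n
      · rcases z0 τ le_rfl p.2.2.1 n with h | h <;> linarith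
    exacts [.inr (.inl (k 0 le_rfl h)), .inr (.inr (k 1 zero_le_one h))]⟩

lemma Γc (τ : ℕ) : Continuous (Γ τ) := Continuous.subtype_mk (continuous_pi fun n => by
  have := fun n => (cv n).comp (continuous_fst (Y := Icc (0 : ℝ) 2))
  unfold z; split_ifs
  · exact this n
  · exact (by fun_prop : Continuous _).add (continuous_const.max (continuous_const.sub (this 0)))
  · exact continuous_const.sub (continuous_const.max (continuous_const.sub (this 0)))) _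

lemma win {δ : ℝ} (δ0 : 0 < δ) : ∃ m, ∀ x y : X, (∀ i < m, x.1 i = y.1 i) → dist x y ≤ δ := by
  obtain ⟨m, hm⟩ := exists_pow_lt_of_lt_one (half_pos δ0) (two_inv_lt_one (α := ℝ))
  refine ⟨m, fun x y h => ?_⟩
  change dist x.1 y.1 ≤ δ
  rw [PiCountable.dist_eq_tsum]
  refine ((PiCountable.dist_summable _ _).tsum_le_tsum (g := fun i => if m ≤ i then 2⁻¹ ^ i else 0) (fun i => ?_)
    (.of_nonneg_of_le (fun i => by positivity) (fun i => by split_ifs <;> simp) summable_geometric_two)).trans ?_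
  · split_ifs with c
    · exact min_le_left _ _
    · simp [h i (not_le.1 c)]
  · rw [tsum_geometric_inv_two_ge]; linarith

lemma co {x y : X} {δ : ℝ} (h : dist x y < δ) (δ1 : δ ≤ 1) : |x.1 0 - y.1 0| < δ :=
  (PiCountable.dist_le_dist_pi_of_dist_lt (i := 0) ((h.trans_le δ1).trans_eq (by simp))).trans_lt h

/-- the tent weight -/
noncomputable def w (u : X → ℝ) (p : X × Icc (0 : ℝ) 2) : ℝ := min (u p.1) (1 - |p.2.1 - 1|)

lemma wF {u : X → ℝ} (h : IsF u) : IsF (w u) := by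
  obtain ⟨h1, h2, ⟨x, h3⟩, h4⟩ := h
  refine ⟨fun p => ⟨le_min (h1 _).1 (sub_nonneg.2 (abs_le.2 ⟨by linarith [p.2.2.1], by linarith [p.2.2.2]⟩)),
    (min_le_left _ _).trans (h1 _).2⟩, upperSemicontinuous_iff_isClosed_preimage.2 fun a => ?_,
    ⟨(x, ⟨1, by norm_num⟩), by simp [w, h3]⟩, (h4.prod isCompact_univ).closure_of_subset fun p hp =>
      ⟨subset_closure (show 0 < u p.1 from lt_of_lt_of_le hp (min_le_left _ _)), trivial⟩⟩
  convert ((h2.isClosed_preimage a).preimage continuous_fst).inter (isClosed_le (f := fun _ => a)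
    (g := fun p : X × Icc (0 : ℝ) 2 => 1 - |p.2.1 - 1|) continuous_const (by fun_prop)) using 1
  ext; simp [w]

lemma fuzzy : DenseProx IsF dE (zad f) := fun u v hu hv ε ε0 => by
  obtain ⟨τ, hτ⟩ := win (half_pos ε0)
  have ap : ∀ u : X → ℝ, IsF u → dE u (zad (Γ τ) (w u)) < ε := fun u hu => by
    have d : ∀ p, dist p.1 (Γ τ p) ≤ ε / 2 := fun p => hτ _ _ fun i hi => (if_pos hi.le).symm
    refine (dE_le (half_pos ε0) hu.1 (zB _ (wF hu).1) (fun x _ => ⟨Γ τ (x, ⟨1, by norm_num⟩), d (x, _),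
      le_trans ?_ (zL _ (wF hu).1 _)⟩) fun y hy => ?_).trans_lt (half_lt_self ε0)
    · exact le_min (by linarith) (by simp; linarith [(hu.1 x).2])
    · obtain ⟨p, rfl, h⟩ := zU (Γ τ) (sub_nonneg.2 hy.le) (sub_lt_self _ (half_pos ε0))
      exact ⟨p.1, dist_comm p.1 _ ▸ d p, (h.trans_le (min_le_left _ _)).le⟩
  refine ⟨_, _, zF (Γc τ) (wF hu), zF (Γc τ) (wF hv), ap u hu, ap v hv, fun δ' δ0' => frequently_atTop.2 fun N => ?_⟩
  obtain ⟨δ, δ0, δ1⟩ := exists_between δ0'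
  obtain ⟨m, hm⟩ := win δ0
  obtain ⟨k, hk⟩ := exists_nat_gt (2 / δ)
  set j := τ.pair (N + m + τ + k + 1) with hj
  have j1 : N + m + τ + k + 1 ≤ j := Nat.right_le_pair _ _
  have j2 : j ≤ j ^ 2 := Nat.le_self_pow two_ne_zero j
  have j3 : 1 / (j + 1 : ℝ) ≤ δ / 2 := by
    have : (k : ℝ) ≤ j := by exact_mod_cast (by omega)
    rw [div_lt_iff₀ δ0] at hk
    rw [div_le_iff₀ (by positivity)]; nlinarith
  have lam : ∀ x : X, max 0 (-3 - x.1 0) ∈ Icc (0 : ℝ) 1 := fun x => ⟨le_max_left _ _, max_le zero_le_one (by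
    rcases x.2 with h | h | h
    exacts [by linarith [h 0], by linarith [h.1], by linarith [h.1]])⟩
  have B := fun (u : X → ℝ) (hu : IsF u) => zI f (zB (Γ τ) (wF hu).1) (j ^ 2)
  have pr : ∀ u v : X → ℝ, IsF u → IsF v → ∀ x, δ < (zad f)^[j ^ 2] (zad (Γ τ) (w u)) x → ∃ y, dist x y ≤ δ ∧
      (zad f)^[j ^ 2] (zad (Γ τ) (w u)) x - δ ≤ (zad f)^[j ^ 2] (zad (Γ τ) (w v)) y := fun u v hu hv y hy => by
    set t := (zad f)^[j ^ 2] (zad (Γ τ) (w u)) y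
    obtain ⟨_, e, h⟩ := (B u hu).2.2 (t - δ / 2) y (by linarith) (by linarith)
    obtain ⟨⟨x, s⟩, rfl, h'⟩ := zU _ (by linarith) h
    obtain ⟨x', hx⟩ := hv.2.2.1
    set c := (max 0 (-3 - x.1 0) - max 0 (-3 - x'.1 0)) / (j + 1 : ℝ) with hc
    have c1 : |c| ≤ δ / 2 := by
      rw [hc, abs_div, abs_of_pos (by positivity : (0 : ℝ) < j + 1)]
      refine le_trans ?_ j3
      gcongr
      exact abs_le.2 ⟨by linarith [(lam x).1, (lam x').2], by linarith [(lam x).2, (lam x').1]⟩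
    have c2 : |s.1 + c - 1| ≤ 1 - (t - δ) := by
      have := (lt_min_iff.1 h').2
      rw [add_sub_right_comm]
      linarith [abs_add_le (s.1 - 1) c]
    have c3 := abs_le.1 c2
    refine ⟨f^[j ^ 2] (Γ τ (x', ⟨s + c, by constructor <;> linarith⟩)), hm _ _ fun i hi => ?_,
      le_trans (le_min ?_ ?_) ((zL _ (wF hv).1 _).trans ((B v hv).2.1 _))⟩
    · rw [← e]
      simp only [fI, Γ, z, if_neg (by omega : ¬ j ^ 2 + i ≤ τ), Nat.sqrt_add_eq' j (by omega : i ≤ j + j),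
        show j.unpair.1 = τ by simp [hj], if_true, hc]
      field_simp; ring
    · linarith [((B u hu).1 y).2]
    · simp only; linarith
  exact ⟨j ^ 2, by omega, (dE_le δ0 (B u hu).1 (B v hv).1 (pr u v hu hv) (pr v u hv hu)).trans_lt δ1⟩

lemma hyper : ¬ DenseProx (fun _ => True) dist (NonemptyCompacts.map f fc) := fun H => by
  have pt : ∀ l, 0 ≤ l → Lab l fun n => if n = 0 then -3 - l else z 0 l 0 n := fun l l0 =>
    ⟨rfl, fun n hn => by simpa only [if_neg hn.ne'] using z0 0 l0 le_rfl n, 0, 0, by simp, fun n hn => if_neg hn.ne'⟩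
  let a : X := ⟨_, .inr (.inl (pt 0 le_rfl))⟩
  let b : X := ⟨_, .inr (.inr (pt 1 zero_le_one))⟩
  obtain ⟨K, L, -, -, h1, h2, H⟩ := H {a} {b} trivial trivial 1 one_pos
  have ex : ∀ (K L : NonemptyCompacts X) (δ : ℝ), δ ≤ 1 → dist K L < δ → ∀ x ∈ K, ∃ y ∈ L, |x.1 0 - y.1 0| < δ :=
    fun K L δ δ1 h x hx => let ⟨y, hy, e⟩ := exists_dist_lt_of_hausdorffDist_lt hx h (edist_ne_top K L)
      ⟨y, hy, co e δ1⟩
  have k0 : ∀ x ∈ K, Lab 0 x.1 := fun x hx => by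
    obtain ⟨y, rfl, e⟩ := ex K {a} 1 le_rfl (dist_comm K _ ▸ h1) x hx
    have := abs_lt.1 e
    simp only [a, if_true] at this
    rcases x.2 with h | h | h
    exacts [by linarith [h 0], h, by linarith [h.1]]
  have k1 : ∀ x ∈ L, Lab 1 x.1 := fun x hx => by
    obtain ⟨y, rfl, e⟩ := ex L {b} 1 le_rfl (dist_comm L _ ▸ h2) x hx
    have := abs_lt.1 e
    simp only [b, if_true] at this
    rcases x.2 with h | h | h
    exacts [by linarith [h 0], by linarith [h.1], h]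
  have it : ∀ (n : ℕ) (K : NonemptyCompacts X), (((NonemptyCompacts.map f fc)^[n] K : NonemptyCompacts X) : Set X) =
      f^[n] '' K := fun n K => by
    induction n with
    | zero => simp
    | succ n ih => simp only [Function.iterate_succ', Function.comp_apply, NonemptyCompacts.coe_map, ih, image_image]
  have ex' : ∀ (K L : NonemptyCompacts X) n, dist ((NonemptyCompacts.map f fc)^[n] K)
      ((NonemptyCompacts.map f fc)^[n] L) < 1 / 4 → ∀ x ∈ K, ∃ y ∈ L, |x.1 n - y.1 n| < 1 / 4 := fun K L n h x hx => by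
    obtain ⟨y, hy, e⟩ := ex _ _ _ (by norm_num) h (f^[n] x) (by
      rw [← SetLike.mem_coe, it]; exact mem_image_of_mem _ hx)
    rw [← SetLike.mem_coe, it] at hy
    obtain ⟨y, hy, rfl⟩ := hy
    exact ⟨y, hy, by simpa only [fI, add_zero] using e⟩
  have F : ∀ N, ∃ n ≥ N, (∀ x ∈ K, ∃ y ∈ L, |x.1 n - y.1 n| < 1 / 4) ∧ ∀ y ∈ L, ∃ x ∈ K, |y.1 n - x.1 n| < 1 / 4 :=
    fun N => let ⟨n, h, e⟩ := frequently_atTop.1 (H _ (by norm_num)) N
      ⟨n, h, ex' K L n e, ex' L K n ((dist_comm _ _).trans_lt e)⟩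
  choose! τ s s1 s2 using fun x hx => (k0 x hx).2.2
  choose! σ r r1 r2 using fun x hx => (k1 x hx).2.2
  choose n n1 n2 n3 using F
  have t1 : ∀ x ∈ K, ∀ N, τ x < N → (n N).sqrt.unpair.1 = τ x := fun x hx N h => by
    by_contra c
    obtain ⟨y, hy, e⟩ := n2 N x hx
    rw [s2 x hx _ (h.trans_le (n1 N)), z, if_neg c, abs_lt] at e
    rcases (k1 y hy).2.1 (n N) (by have := n1 N; omega) with h | h <;> linarith [e.1, e.2]
  have t2 : ∀ x ∈ L, ∀ N, σ x < N → (n N).sqrt.unpair.1 = σ x := fun x hx N h => by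
    by_contra c
    obtain ⟨y, hy, e⟩ := n3 N x hx
    rw [r2 x hx _ (h.trans_le (n1 N)), z, if_neg c, abs_lt] at e
    rcases (k0 y hy).2.1 (n N) (by have := n1 N; omega) with h | h <;> linarith [e.1, e.2]
  obtain ⟨x0, hx0⟩ := K.nonempty
  have t3 : ∀ x ∈ K, τ x = τ x0 := fun x hx =>
    (t1 x hx (τ x + τ x0 + 1) (by omega)).symm.trans (t1 x0 hx0 _ (by omega))
  have t4 : ∀ x ∈ L, σ x = τ x0 := fun x hx =>
    (t2 x hx (σ x + τ x0 + 1) (by omega)).symm.trans (t1 x0 hx0 _ (by omega))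
  have bK : BddAbove (s '' K) := ⟨2, fun _ ⟨x, h, e⟩ => e ▸ (s1 x h).2⟩
  have bL : BddAbove (r '' L) := ⟨2, fun _ ⟨x, h, e⟩ => e ▸ (r1 x h).2⟩
  have key : ∀ N, τ x0 < N → 3 / 4 / ((n N).sqrt + 1 : ℝ) ≤ sSup (s '' K) - sSup (r '' L) ∧
      sSup (s '' K) - sSup (r '' L) ≤ 5 / 4 / ((n N).sqrt + 1 : ℝ) := fun N h => by
    have M0 : (0 : ℝ) < (n N).sqrt + 1 := by positivity
    have e : ∀ x ∈ K, ∀ y ∈ L, x.1 (n N) - y.1 (n N) = ((n N).sqrt + 1) * (s x - r y) - 1 := fun x hx y hy => by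
      rw [s2 x hx _ (t3 x hx ▸ h.trans_le (n1 N)), r2 y hy _ (t4 y hy ▸ h.trans_le (n1 N)), z, z,
        if_pos (t1 x hx N (t3 x hx ▸ h)), if_pos (t2 y hy N (t4 y hy ▸ h))]
      ring
    rw [le_sub_comm, sub_le_iff_le_add]
    refine ⟨csSup_le (L.nonempty.image _) fun _ ⟨y, hy, q⟩ => ?_, csSup_le (K.nonempty.image _) fun _ ⟨x, hx, q⟩ => ?_⟩
    · obtain ⟨x, hx, c⟩ := n3 N y hy
      rw [abs_sub_comm, e x hx y hy, abs_lt] at c
      have := le_csSup bK (mem_image_of_mem s hx)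
      rw [← q, le_sub_comm, div_le_iff₀ M0]; nlinarith [c.1]
    · obtain ⟨y, hy, c⟩ := n2 N x hx
      rw [e x hx y hy, abs_lt] at c
      have := le_csSup bL (mem_image_of_mem r hy)
      rw [← q, ← sub_le_iff_le_add, le_div_iff₀ M0]; nlinarith [c.2]
  set Δ := sSup (s '' K) - sSup (r '' L)
  have d0 : 0 < Δ := lt_of_lt_of_le (by positivity) (key _ (Nat.lt_succ_self _)).1
  obtain ⟨k, hk⟩ := exists_nat_gt (5 / 4 / Δ)
  have := (key (k ^ 2 + τ x0 + 1) (by omega)).2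
  have c : (k : ℝ) ≤ (n (k ^ 2 + τ x0 + 1)).sqrt := by
    exact_mod_cast Nat.le_sqrt'.2 (le_trans (by omega) (n1 _))
  rw [le_div_iff₀ (by positivity)] at this
  rw [div_lt_iff₀ d0] at hk
  nlinarith

theorem result : ∃ (X : Type) (_ : MetricSpace X) (f : X → X) (hf : Continuous f),
    DenseProx IsF dE (zad f) ∧ ¬ DenseProx (fun _ => True) dist (NonemptyCompacts.map f hf) :=
  ⟨X, inferInstance, f, fc, fuzzy, hyper⟩

end Pool.Agent.Results.MP_24ecc9_an.Counter
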